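import Mathlib

namespace Pool.Agent.H.MP_6bd6f6_an

open Filter Topology Set Function

def D (j : ℕ) (z : ℤ_[2]) : Prop := (2 : ℤ_[2]) ^ j ∣ z

lemma D_int {j : ℕ} {a : ℤ} : D j (a : ℤ_[2]) ↔ (2 : ℤ) ^ j ∣ a := by
  simpa [D] using PadicInt.pow_p_dvd_int_iff (p := 2) j a

lemma D_norm {j : ℕ} {z : ℤ_[2]} : D j z ↔ ‖z‖ ≤ (2 : ℝ) ^ (-j : ℤ) := by
  have := PadicInt.norm_le_pow_iff_mem_span_pow z j
  rw [Ideal.mem_span_singleton] at this
  simpa [D] using this.symm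

lemma D_clopen (j : ℕ) : IsClopen {z | D j z} := by
  have := IsUltrametricDist.isClopen_closedBall (0 : ℤ_[2]) (r := (2 : ℝ) ^ (-j : ℤ))
    (by positivity)
  convert this using 1
  ext z
  simp [D_norm]

lemma D.mono {i j : ℕ} {z : ℤ_[2]} (h : D j z) (hij : i ≤ j) : D i z :=
  (pow_dvd_pow _ hij).trans h

lemma D.add {j : ℕ} {z y x : ℤ_[2]} (h : D j z) (h' : D j y) (e : x = z + y) : D j x :=
  e ▸ dvd_add h h'

lemma D.sub {j : ℕ} {z y x : ℤ_[2]} (h : D j z) (h' : D j y) (e : x = z - y) : D j x :=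
  e ▸ dvd_sub h h'

lemma D_appr (z : ℤ_[2]) (j : ℕ) : D j (z - z.appr j) := by
  simpa [D, Ideal.mem_span_singleton] using PadicInt.appr_spec j z

def R (z : ℤ_[2]) (n m : ℤ) : Prop := ∃ j : ℕ, |m - n| < 2 ^ j ∧ D j (z + n)

def X : Type := {p : ℤ_[2] × (ℤ → Bool) // ∀ n m, R p.1 n m → p.2 n = true → p.2 m = true}

noncomputable instance : TopologicalSpace X := instTopologicalSpaceSubtype

lemma cz : Continuous fun p : X => p.1.1 := continuous_fst.comp continuous_subtype_val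

lemma cw (n : ℤ) : Continuous fun p : X => p.1.2 n :=
  (continuous_apply n).comp (continuous_snd.comp continuous_subtype_val)

instance : CompactSpace X := by
  refine isCompact_iff_compactSpace.1 (IsClosed.isCompact (?_ : IsClosed
    {p : ℤ_[2] × (ℤ → Bool) | ∀ n m, R p.1 n m → p.2 n = true → p.2 m = true}))
  have c (n : ℤ) : Continuous fun p : ℤ_[2] × (ℤ → Bool) => p.2 n :=
    (continuous_apply n).comp continuous_snd
  rw [ofPred_forall]
  refine isClosed_iInter fun n => ?_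
  rw [ofPred_forall]
  refine isClosed_iInter fun m => ?_
  refine isClosed_imp ?_ (isClosed_imp ((isOpen_discrete {true}).preimage (c n))
    ((isClosed_discrete {true}).preimage (c m)))
  simp only [R, ofPred_exists]
  exact isOpen_iUnion fun j => isOpen_const.inter
    ((D_clopen j).isOpen.preimage (continuous_fst.add continuous_const))

instance : TopologicalSpace.MetrizableSpace X :=
  Topology.IsEmbedding.subtypeVal.metrizableSpace

lemma R_shift {z : ℤ_[2]} {t n m : ℤ} (h : R (z + t) n m) : R z (n + t) (m + t) := by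
  obtain ⟨j, h1, h2⟩ := h
  exact ⟨j, by simpa using h1, by convert h2 using 1; push_cast; ring⟩

noncomputable def S (t : ℤ) (p : X) : X :=
  ⟨(p.1.1 + t, fun n => p.1.2 (n + t)), fun _ _ h => p.2 _ _ (R_shift h)⟩

lemma S_S (s t : ℤ) (p : X) : S s (S t p) = S (s + t) p :=
  Subtype.ext (Prod.ext (by simp [S]; ring) (funext fun n => by simp [S, add_assoc]))

lemma S_zero (p : X) : S 0 p = p := Subtype.ext (Prod.ext (by simp [S]) (by simp [S]))

lemma S_cont : Continuous (S 1) :=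
  ((cz.add continuous_const).prodMk (continuous_pi fun _ => cw _)).subtype_mk _

lemma S_surj : Surjective (S 1) := fun p => ⟨S (-1) p, by rw [S_S]; simp [S_zero]⟩

lemma S_iter (N : ℕ) (p : X) : (S 1)^[N] p = S N p := by
  induction N with
  | zero => simp [S_zero]
  | succ n ih => rw [iterate_succ_apply', ih, S_S]; congr 1; push_cast; ring

lemma nb (p : X) {U : Set X} (hU : U ∈ 𝓝 p) : ∀ᶠ k : ℕ in atTop, ∀ q : X, D k (p.1.1 - q.1.1) →
    (∀ n : ℤ, |n| ≤ k → q.1.2 n = p.1.2 n) → q ∈ U := by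
  suffices ∃ k : ℕ, ∀ q : X, D k (p.1.1 - q.1.1) → (∀ n : ℤ, |n| ≤ k → q.1.2 n = p.1.2 n) → q ∈ U by
    obtain ⟨k, hk⟩ := this
    filter_upwards [eventually_ge_atTop k] with l hl q h1 h2
    exact hk q (h1.mono hl) fun n hn => h2 n (hn.trans (by exact_mod_cast hl))
  by_contra h
  push Not at h
  choose q h1 h2 h3 using h
  have : Tendsto q atTop (𝓝 p) := by
    refine tendsto_subtype_rng.2 (Tendsto.prodMk_nhds ?_ (tendsto_pi_nhds.2 fun n => ?_))
    · refine tendsto_iff_norm_sub_tendsto_zero.2 (squeeze_zero (fun _ => norm_nonneg _)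
        (fun k => ?_) (tendsto_pow_atTop_nhds_zero_of_lt_one (r := (2 : ℝ)⁻¹) (by norm_num)
          (by norm_num)))
      rw [norm_sub_rev]
      simpa using D_norm.1 (h1 k)
    · refine tendsto_const_nhds.congr' ?_
      filter_upwards [eventually_ge_atTop n.natAbs] with k hk
      exact (h2 k n (by rw [← Int.natCast_natAbs]; exact_mod_cast hk)).symm
  obtain ⟨k, hk⟩ := (this.eventually hU).exists
  exact h3 k hk

def Cl (A : Set ℤ) (u : ℤ) : Prop := ∃ s ∈ A, ∃ j : ℕ, |u - s| < 2 ^ j ∧ (2 : ℤ) ^ j ∣ s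

lemma good {A : Set ℤ} {e : ℕ} (hA : ∀ s ∈ A, ¬ (2 : ℤ) ^ e ∣ s) {z : ℤ_[2]} {t n m : ℤ}
    (hz : D e (z - t)) (h : R z n m) (hn : Cl A (n + t)) : Cl A (m + t) := by
  obtain ⟨j, h1, h2⟩ := h
  obtain ⟨s, hs, i, h3, h4⟩ := hn
  have key : ∀ l, l ≤ j → l ≤ e → (2 : ℤ) ^ l ∣ n + t := fun l a b =>
    D_int.1 ((h2.mono a).sub (hz.mono b) (by push_cast; ring))
  have hi : i ≤ e := by
    by_contra hi
    exact hA s hs ((pow_dvd_pow _ (not_le.1 hi).le).trans h4)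
  rcases le_or_gt i j with hij | hij
  · have : n + t = s := sub_eq_zero.1 (Int.eq_zero_of_abs_lt_dvd ((key i hij hi).sub h4) h3)
    subst this
    rcases le_or_gt j e with hj | hj
    · exact ⟨_, hs, j, by simpa using h1, key j le_rfl hj⟩
    · exact absurd (key e hj.le le_rfl) (hA _ hs)
  · refine ⟨s, hs, i, ?_, h4⟩
    have h5 : (2 : ℤ) ^ j ∣ 2 ^ i - |n + t - s| := (pow_dvd_pow _ hij.le).sub ((dvd_abs _ _).2
      ((key j le_rfl (hij.le.trans hi)).sub ((pow_dvd_pow _ hij.le).trans h4)))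
    have h6 := Int.le_of_dvd (by linarith) h5
    have h7 := abs_add_le (m - n) (n + t - s)
    rw [show m - n + (n + t - s) = m + t - s by ring] at h7
    linarith

def seeds (p : ℤ → X) (k : ℕ) : Set ℤ := {s | ∃ n c : ℤ, |n| ≤ k ∧ (p c).1.2 n = true ∧
  s = (p c).1.1.appr (k + 1) + n + 2 * 2 ^ (k + 1) + 4 * 2 ^ (k + 1) * c}

lemma two_lt (k : ℕ) : 2 * (k : ℤ) < 2 ^ (k + 1) := by
  have : (k : ℤ) < 2 ^ k := by exact_mod_cast Nat.lt_two_pow_self
  rw [pow_succ]; linarith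

lemma appr_lt' (z : ℤ_[2]) (k : ℕ) : (z.appr k : ℤ) < 2 ^ k := by exact_mod_cast z.appr_lt k

lemma seeds_nd {p : ℤ → X} {k : ℕ} {s : ℤ} (hs : s ∈ seeds p k) : ¬ (2 : ℤ) ^ (k + 3) ∣ s := by
  obtain ⟨n, c, h1, -, rfl⟩ := hs
  intro h
  rw [show (2 : ℤ) ^ (k + 3) = 4 * 2 ^ (k + 1) by ring] at h
  have h2 := appr_lt' (p c).1.1 (k + 1)
  have h3 := two_lt k
  have h4 := abs_le.1 h1
  have h5 : (0 : ℤ) ≤ (p c).1.1.appr (k + 1) := by positivity
  have := Int.le_of_dvd (by linarith) ((dvd_add_left (dvd_mul_right _ _)).1 h)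
  linarith

lemma seeds_le {p : ℤ → X} {k j : ℕ} {s : ℤ} (hs : s ∈ seeds p k) (h : (2 : ℤ) ^ j ∣ s) :
    j ≤ k + 2 := by
  by_contra hj
  exact seeds_nd hs ((pow_dvd_pow _ (by omega)).trans h)

lemma win (p : ℤ → X) (k : ℕ) (c m : ℤ) (hm : |m| ≤ k) :
    Cl (seeds p k) (m + ((p c).1.1.appr (k + 1) + 2 * 2 ^ (k + 1) + 4 * 2 ^ (k + 1) * c)) ↔
      (p c).1.2 m = true := by
  refine ⟨?_, fun h => ⟨_, ⟨m, c, hm, h, rfl⟩, 0, by ring_nf; simp, by simp⟩⟩
  rintro ⟨s, hs, j, h1, h2⟩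
  have hj := seeds_le hs h2
  obtain ⟨n, d, hn, hw, rfl⟩ := hs
  have h3 := two_lt k
  have h4 := abs_le.1 hn
  have h5 := abs_le.1 hm
  have h6 : (2 : ℤ) ^ j ≤ 2 * 2 ^ (k + 1) := by
    rw [← pow_succ']; exact pow_le_pow_right₀ one_le_two hj
  have h7 := abs_lt.1 h1
  have hcd : d = c := by
    have a1 := appr_lt' (p c).1.1 (k + 1)
    have a2 := appr_lt' (p d).1.1 (k + 1)
    have a3 : (0 : ℤ) ≤ (p c).1.1.appr (k + 1) := by positivity
    have a4 : (0 : ℤ) ≤ (p d).1.1.appr (k + 1) := by positivity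
    have a5 : (0 : ℤ) < 2 ^ (k + 1) := by positivity
    rcases lt_trichotomy d c with h | h | h
    · have : d + 1 ≤ c := h
      nlinarith
    · exact h
    · have : c + 1 ≤ d := h
      nlinarith
  subst hcd
  refine (p d).2 n m ⟨min j (k + 1), ?_, ?_⟩ hw
  · rcases min_choice j (k + 1) with h | h <;> rw [h]
    · convert h1 using 2; ring
    · exact abs_lt.2 ⟨by linarith, by linarith⟩
  · have h8 : (2 : ℤ) ^ min j (k + 1) ∣ (p d).1.1.appr (k + 1) + n := by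
      have := ((pow_dvd_pow _ (min_le_left j (k + 1))).trans h2).sub
        ((pow_dvd_pow (2 : ℤ) (min_le_right j (k + 1))).mul_left (2 + 4 * d))
      rwa [show ∀ x y Q : ℤ, x + 2 * Q + 4 * Q * y - (2 + 4 * y) * Q = x by intros; ring] at this
    exact ((D_appr _ _).mono (min_le_right _ _)).add (D_int.2 h8) (by push_cast; ring)

lemma per {p : ℤ → X} (hp : ∀ c d, p (c + 2 * d) = p c) (k : ℕ) (u d : ℤ)
    (h : Cl (seeds p k) u) : Cl (seeds p k) (u + 2 ^ (k + 4) * d) := by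
  obtain ⟨s, hs, j, h1, h2⟩ := h
  have hj := seeds_le hs h2
  obtain ⟨n, c, hn, hw, rfl⟩ := hs
  refine ⟨_, ⟨n, c + 2 * d, hn, by rwa [hp], rfl⟩, j, ?_, ?_⟩
  · rw [hp]; convert h1 using 2; ring
  · rw [hp]
    refine (h2.add ((pow_dvd_pow (2 : ℤ) (by omega : j ≤ k + 4)).mul_right d)).trans (dvd_of_eq ?_)
    ring

lemma main (p₁ p₂ : X) (k : ℕ) : ∃ (W : ℤ → Bool) (e : ℕ) (a : ℤ) (N : ℕ), k ≤ e ∧
    (∀ u d, W (u + 2 ^ e * d) = W u) ∧
    (∀ (z : ℤ_[2]) (t : ℤ), D e (z - t) → ∀ n m, R z n m → W (n + t) = true → W (m + t) = true) ∧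
    D k (p₁.1.1 - a) ∧ D k (p₂.1.1 - (a + N)) ∧
    ∀ n : ℤ, |n| ≤ k → W (n + a) = p₁.1.2 n ∧ W (n + N + a) = p₂.1.2 n := by
  classical
  let p : ℤ → X := fun c => if Even c then p₁ else p₂
  have hp : ∀ c d, p (c + 2 * d) = p c := fun c d => by simp [p, parity_simps]
  have h0 : p 0 = p₁ := by simp [p]
  have h1 : p 1 = p₂ := by simp [p]
  have hN : ((p₂.1.1.appr (k + 1) + 4 * 2 ^ (k + 1) - p₁.1.1.appr (k + 1) : ℕ) : ℤ) =
      p₂.1.1.appr (k + 1) + 4 * 2 ^ (k + 1) - p₁.1.1.appr (k + 1) := by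
    have := p₁.1.1.appr_lt (k + 1)
    rw [Nat.cast_sub (by omega)]; push_cast; ring
  refine ⟨fun u => decide (Cl (seeds p k) u), k + 4, p₁.1.1.appr (k + 1) + 2 * 2 ^ (k + 1),
    p₂.1.1.appr (k + 1) + 4 * 2 ^ (k + 1) - p₁.1.1.appr (k + 1), by omega, fun u d => ?_,
    fun z t hz n m h => ?_, ?_, ?_, fun n hn => ⟨?_, ?_⟩⟩
  · refine decide_eq_decide.2 ⟨fun h => ?_, per hp k u d⟩
    simpa using per hp k _ (-d) h
  · simpa using good (fun s hs => seeds_nd hs) (hz.mono (by omega)) h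
  · exact ((D_appr p₁.1.1 (k + 1)).mono (by omega)).sub (y := 2 ^ k * 4) (dvd_mul_right _ _)
      (by push_cast; ring)
  · refine ((D_appr p₂.1.1 (k + 1)).mono (by omega)).sub (y := 2 ^ k * 12) (dvd_mul_right _ _) ?_
    rw [← Int.cast_natCast (R := ℤ_[2]) (_ - _), hN]; push_cast; ring
  · have := win p k 0 n hn
    rw [h0, mul_zero, add_zero] at this
    exact Bool.eq_iff_iff.2 (by simpa using this)
  · have := win p k 1 n hn
    rw [h1] at this
    refine Bool.eq_iff_iff.2 ?_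
    rw [← this, hN, decide_eq_true_iff]
    ring_nf

end Pool.Agent.H.MP_6bd6f6_an
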